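import Mathlib
import Pool.Agent.Y171.CE.Stm

/-!
# CE-DIMQ: invariant function spaces on `SL_2(F)` have dimension at least `(q - 1) / 2`
-/

set_option autoImplicit false

namespace Pool.Agent.Y286.CE

open Pool.Agent.Y171.CE Matrix Finset

section

variable {F : Type} [Field F]

/-- upper unipotent matrices -/
def uu (b : F) : SL2 F := ⟨!![1, b; 0, 1], by simp [Matrix.det_fin_two_of]⟩

/-- lower unipotent matrices -/
def lo (c : F) : SL2 F := ⟨!![1, 0; c, 1], by simp [Matrix.det_fin_two_of]⟩

/-- the Weyl element -/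
def we (F : Type) [Field F] : SL2 F := ⟨!![0, 1; -1, 0], by simp [Matrix.det_fin_two_of]⟩

/-- diagonal matrices -/
def tt (a : F) (ha : a ≠ 0) : SL2 F := ⟨!![a, 0; 0, a⁻¹], by simp [Matrix.det_fin_two_of, ha]⟩

theorem uu_mul (b c : F) : uu b * uu c = uu (b + c) := by
  apply Subtype.ext
  change !![1, b; 0, 1] * !![1, c; 0, 1] = !![1, b + c; 0, 1]
  rw [Matrix.mul_fin_two]
  congr 1
  ext i j
  fin_cases i <;> fin_cases j <;> simp [add_comm]

theorem uu_zero : uu (0 : F) = 1 := by
  apply Subtype.ext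
  change !![1, 0; 0, 1] = (1 : Matrix (Fin 2) (Fin 2) F)
  ext i j
  fin_cases i <;> fin_cases j <;> simp

theorem we_uu (b : F) : we F * uu b = lo (-b) * we F := by
  apply Subtype.ext
  change !![0, 1; -1, 0] * !![1, b; 0, 1] = !![1, 0; -b, 1] * !![0, 1; -1, 0]
  rw [Matrix.mul_fin_two, Matrix.mul_fin_two]
  ext i j
  fin_cases i <;> fin_cases j <;> simp

theorem tt_uu (a : F) (ha : a ≠ 0) (b : F) : tt a ha * uu b = uu (a ^ 2 * b) * tt a ha := by
  apply Subtype.ext
  change !![a, 0; 0, a⁻¹] * !![1, b; 0, 1] = !![1, a ^ 2 * b; 0, 1] * !![a, 0; 0, a⁻¹]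
  rw [Matrix.mul_fin_two, Matrix.mul_fin_two]
  ext i j
  fin_cases i <;> fin_cases j <;> simp
  field_simp

/-- the unipotent matrices generate -/
theorem gen (H : Subgroup (SL2 F)) (hu : ∀ b, uu b ∈ H) (hl : ∀ c, lo c ∈ H) (M : SL2 F) :
    M ∈ H := by
  have key : ∀ M : SL2 F, M.1 1 0 ≠ 0 → M ∈ H := by
    intro M hc
    have hdet : M.1 0 0 * M.1 1 1 - M.1 0 1 * M.1 1 0 = 1 := by
      have := M.2
      rwa [Matrix.det_fin_two] at this
    have h1 : M = uu ((M.1 0 0 - 1) / M.1 1 0) * lo (M.1 1 0) * uu ((M.1 1 1 - 1) / M.1 1 0) := by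
      apply Subtype.ext
      change M.1 = !![1, (M.1 0 0 - 1) / M.1 1 0; 0, 1] * !![1, 0; M.1 1 0, 1] *
        !![1, (M.1 1 1 - 1) / M.1 1 0; 0, 1]
      rw [Matrix.mul_fin_two, Matrix.mul_fin_two]
      ext i j
      fin_cases i <;> fin_cases j
      · simp; field_simp; ring
      · simp; field_simp; linear_combination (-1 : F) * hdet
      · simp
      · simp; field_simp; ring
    rw [h1]
    exact H.mul_mem (H.mul_mem (hu _) (hl _)) (hu _)
  by_cases hc : M.1 1 0 = 0
  · have hdet : M.1 0 0 * M.1 1 1 - M.1 0 1 * M.1 1 0 = 1 := by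
      have := M.2
      rwa [Matrix.det_fin_two] at this
    have ha : M.1 0 0 ≠ 0 := by
      intro h
      rw [h, hc] at hdet
      simp at hdet
    have h1 : (lo 1 * M).1 1 0 = M.1 0 0 := by
      change ((!![1, 0; 1, 1] : Matrix (Fin 2) (Fin 2) F) * M.1) 1 0 = M.1 0 0
      rw [Matrix.mul_apply]
      simp [Fin.sum_univ_two, hc]
    have h2 : lo 1 * M ∈ H := key _ (by rw [h1]; exact ha)
    exact (H.mul_mem_cancel_left (hl 1)).mp h2
  · exact key M hc

variable [Fintype F] [DecidableEq F]

/-- a space of functions which is invariant under left translations and whose elements have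
mean zero contains a nonzero function with a nontrivial character -/
theorem exists_char (V : Submodule ℂ (SL2 F → ℂ))
    (hV : ∀ f ∈ V, ∀ g : SL2 F, (fun x => f (g * x)) ∈ V) (hne : V ≠ ⊥)
    (h0 : ∀ f ∈ V, ∑ x, f x = 0) :
    ∃ ψ : AddChar F ℂ, ψ ≠ 1 ∧ ∃ f ∈ V, f ≠ 0 ∧ ∀ b x, f (uu b * x) = ψ b * f x := by
  by_contra hcon
  push Not at hcon
  have hP : ∀ f ∈ V, ∀ (b : F) (x : SL2 F), f (uu b * x) = f x := by
    intro f hf
    have hz : ∀ ψ : AddChar F ℂ, ψ ≠ 1 → ∀ x, ∑ b : F, ψ (-b) * f (uu b * x) = 0 := by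
      intro ψ hψ x
      by_contra hx
      have hmem : (fun y => ∑ b : F, ψ (-b) * f (uu b * y)) ∈ V := by
        have h1 : (fun y => ∑ b : F, ψ (-b) * f (uu b * y)) =
            ∑ b : F, ψ (-b) • (fun y => f (uu b * y)) := by
          funext y
          rw [Finset.sum_apply]
          rfl
        rw [h1]
        exact V.sum_mem fun b _ => V.smul_mem _ (hV f hf (uu b))
      obtain ⟨c, y, hcy⟩ := hcon ψ hψ _ hmem (by
        intro h
        exact hx (congrFun h x))
      apply hcy
      rw [mul_sum]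
      refine Fintype.sum_equiv (Equiv.addRight c) _ _ fun b => ?_
      simp only [Equiv.coe_addRight]
      rw [← mul_assoc (uu b), uu_mul, neg_add, AddChar.map_add_eq_mul]
      rw [show ψ c * (ψ (-b) * ψ (-c) * f (uu (b + c) * y)) =
        (ψ c * ψ (-c)) * (ψ (-b) * f (uu (b + c) * y)) by ring]
      rw [← AddChar.map_add_eq_mul, add_neg_cancel, AddChar.map_zero_eq_one, one_mul]
    have hq : (Fintype.card F : ℂ) ≠ 0 := by
      exact_mod_cast Fintype.card_ne_zero
    have hinv : ∀ (c : F) (x : SL2 F),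
        (Fintype.card F : ℂ) * f (uu c * x) = ∑ b : F, (1 : AddChar F ℂ) (-b) * f (uu b * x) := by
      intro c x
      have h1 : ∑ ψ : AddChar F ℂ, ψ c * ∑ b : F, ψ (-b) * f (uu b * x) =
          (Fintype.card F : ℂ) * f (uu c * x) := by
        have h2 : ∀ ψ : AddChar F ℂ, ψ c * ∑ b : F, ψ (-b) * f (uu b * x) =
            ∑ b : F, ψ (c - b) * f (uu b * x) := by
          intro ψ
          rw [mul_sum]
          refine sum_congr rfl fun b _ => ?_
          rw [sub_eq_add_neg, AddChar.map_add_eq_mul]; ring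
        rw [sum_congr rfl fun ψ _ => h2 ψ, sum_comm]
        have h3 : ∀ b : F, ∑ ψ : AddChar F ℂ, ψ (c - b) * f (uu b * x) =
            if b = c then (Fintype.card F : ℂ) * f (uu c * x) else 0 := by
          intro b
          rw [← sum_mul, AddChar.sum_apply_eq_ite]
          by_cases hb : b = c
          · subst hb; simp
          · rw [if_neg (sub_ne_zero.mpr (Ne.symm hb)), if_neg hb, zero_mul]
        rw [sum_congr rfl fun b _ => h3 b, sum_ite_eq' univ c]
        simp
      rw [← h1, sum_eq_single (1 : AddChar F ℂ)]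
      · simp
      · intro ψ _ hψ
        rw [hz ψ hψ x, mul_zero]
      · intro h; exact absurd (mem_univ _) h
    intro b x
    have h1 := hinv b x
    have h2 := hinv 0 x
    rw [uu_zero, one_mul] at h2
    exact mul_left_cancel₀ hq (h1.trans h2.symm)
  -- the subgroup of all elements acting trivially
  let H : Subgroup (SL2 F) :=
    { carrier := {g | ∀ f ∈ V, ∀ x, f (g * x) = f x}
      mul_mem' := by
        intro a b ha hb f hf x
        rw [mul_assoc, ha f hf, hb f hf]
      one_mem' := by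
        intro f _ x
        rw [one_mul]
      inv_mem' := by
        intro a ha f hf x
        have := ha f hf (a⁻¹ * x)
        rw [mul_inv_cancel_left] at this
        exact this.symm }
  have hu : ∀ b, uu b ∈ H := fun b f hf x => hP f hf b x
  have hl : ∀ c, lo c ∈ H := by
    intro c f hf x
    have h1 := hP _ (hV f hf (we F)) (-c) ((we F)⁻¹ * x)
    rw [← mul_assoc, we_uu, neg_neg, mul_assoc, mul_inv_cancel_left] at h1
    exact h1
  obtain ⟨f, hf, hf0⟩ := (Submodule.ne_bot_iff V).mp hne
  have hconst : ∀ x, f x = f 1 := by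
    intro x
    have := (gen H hu hl x) f hf 1
    rw [mul_one] at this
    exact this
  have hs := h0 f hf
  rw [sum_congr rfl fun x _ => hconst x, sum_const, nsmul_eq_mul] at hs
  have hc : ((univ : Finset (SL2 F)).card : ℂ) ≠ 0 := by
    have : (univ : Finset (SL2 F)).card ≠ 0 := by
      rw [Finset.card_univ]; exact Fintype.card_ne_zero
    exact_mod_cast this
  rcases mul_eq_zero.mp hs with h | h
  · exact hc h
  · apply hf0
    funext x
    rw [hconst x, h]
    rfl

end

theorem dimq : S_DIMQ := by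
  intro F _ _ _ _ V hV hne h0
  obtain ⟨ψ, hψ, f, hf, hf0, hfu⟩ := exists_char V hV hne h0
  have hprim : ψ.IsPrimitive := AddChar.IsPrimitive.of_ne_one hψ
  have hq : (Fintype.card F : ℂ) ≠ 0 := by
    exact_mod_cast Fintype.card_ne_zero
  set S : Finset F := (univ.erase (0 : F)).image (fun a => a ^ 2) with hS
  have hroot : ∀ s : S, ∃ a : F, a ≠ 0 ∧ a ^ 2 = s := by
    intro s
    obtain ⟨a, ha, h⟩ := mem_image.mp s.2
    exact ⟨a, (mem_erase.mp ha).1, h⟩
  choose r hr0 hr using hroot
  let v : S → V := fun s => ⟨fun x => f (tt (r s) (hr0 s) * x), hV f hf _⟩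
  have hvne : ∀ s, ∃ x, (v s).1 x ≠ 0 := by
    intro s
    obtain ⟨y, hy⟩ : ∃ y, f y ≠ 0 := by
      by_contra h
      push Not at h
      exact hf0 (funext h)
    refine ⟨(tt (r s) (hr0 s))⁻¹ * y, ?_⟩
    change f (tt (r s) (hr0 s) * ((tt (r s) (hr0 s))⁻¹ * y)) ≠ 0
    rw [mul_inv_cancel_left]
    exact hy
  have hvu : ∀ (s : S) (b : F) (x : SL2 F), (v s).1 (uu b * x) = ψ (s * b) * (v s).1 x := by
    intro s b x
    change f (tt (r s) (hr0 s) * (uu b * x)) = ψ (s * b) * f (tt (r s) (hr0 s) * x)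
    rw [← mul_assoc, tt_uu, mul_assoc, hfu, hr s]
  have hlin : LinearIndependent ℂ v := by
    rw [Fintype.linearIndependent_iff]
    intro c hc s0
    obtain ⟨x, hx⟩ := hvne s0
    have h1 : ∀ y : SL2 F, ∑ s : S, c s * (v s).1 y = 0 := by
      intro y
      have h2 := congrArg (fun w : V => w.1 y) hc
      rw [Submodule.coe_sum, Finset.sum_apply] at h2
      exact h2
    have h2 : ∑ b : F, ψ (-(s0 * b)) * ∑ s : S, c s * (v s).1 (uu b * x) = 0 := by
      refine sum_eq_zero fun b _ => ?_
      rw [h1, mul_zero]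
    have h3 : ∑ b : F, ψ (-(s0 * b)) * ∑ s : S, c s * (v s).1 (uu b * x) =
        ∑ s : S, c s * (v s).1 x * ∑ b : F, ψ (b * ((s : F) - s0)) := by
      simp only [mul_sum]
      rw [sum_comm]
      refine sum_congr rfl fun s _ => sum_congr rfl fun b _ => ?_
      rw [hvu, show b * ((s : F) - s0) = s * b + -(s0 * b) by ring, AddChar.map_add_eq_mul]
      ring
    rw [h3, sum_eq_single s0] at h2
    · rw [AddChar.sum_mulShift _ hprim, if_pos (sub_self _)] at h2
      rcases mul_eq_zero.mp h2 with h | h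
      · rcases mul_eq_zero.mp h with h | h
        · exact h
        · exact absurd h hx
      · exact absurd h (by exact_mod_cast hq)
    · intro s _ hs
      rw [AddChar.sum_mulShift _ hprim, if_neg (sub_ne_zero.mpr (fun h => hs (Subtype.ext h)))]
      simp
    · intro h; exact absurd (mem_univ _) h
  have hcard := hlin.fintype_card_le_finrank
  rw [Fintype.card_coe] at hcard
  have hfib : (univ.erase (0 : F)).card ≤ 2 * S.card := by
    refine card_le_mul_card_image _ 2 ?_
    intro s hs
    obtain ⟨a, _, rfl⟩ := mem_image.mp hs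
    have h1 : (univ.erase (0 : F)).filter (fun x => x ^ 2 = a ^ 2) ⊆ {a, -a} := by
      intro y hy
      rw [mem_filter] at hy
      rw [mem_insert, mem_singleton]
      exact sq_eq_sq_iff_eq_or_eq_neg.mp hy.2
    exact (card_le_card h1).trans (card_le_two)
  rw [card_erase_of_mem (mem_univ _), card_univ] at hfib
  omega

end Pool.Agent.Y286.CE
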